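import Mathlib
import Pool.Agent.Helper69.BQ.Defs

/-!
# Project BQ, piece M7: correctness of the quadratic residue test
-/

namespace Pool.Agent.Helper2.BQ

open Pool.Agent.Helper69.BQ

lemma powMod_lt (p : ℕ) : ∀ (f b e acc : ℕ), 0 < p → acc < p → powMod p f b e acc < p
  | 0, _, _, _, _, h => h
  | f + 1, b, e, acc, hp, h => by
    rw [powMod]
    apply powMod_lt p f _ _ _ hp
    split_ifs
    · exact Nat.mod_lt _ hp
    · exact h

lemma powMod_cast (p : ℕ) : ∀ (f b e acc : ℕ), e < 2 ^ f →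
    ((powMod p f b e acc : ℕ) : ZMod p) = (acc : ZMod p) * (b : ZMod p) ^ e
  | 0, b, e, acc, h => by
    have he : e = 0 := by simpa using h
    subst he
    simp [powMod]
  | f + 1, b, e, acc, h => by
    rw [powMod, powMod_cast p f _ _ _ (by rw [pow_succ] at h; omega), ZMod.natCast_mod,
      Nat.cast_mul]
    have he : e = 2 * (e / 2) + e % 2 := by omega
    have hb : ((b : ZMod p) * (b : ZMod p)) ^ (e / 2) = (b : ZMod p) ^ (2 * (e / 2)) := by
      rw [pow_mul, sq]
    rw [hb]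
    split_ifs with h1
    · rw [h1] at he
      conv_rhs => rw [he]
      rw [ZMod.natCast_mod, Nat.cast_mul, pow_succ]
      ring
    · have h0 : e % 2 = 0 := by omega
      rw [h0, add_zero] at he
      conv_rhs => rw [he]

/-- M7. Euler's criterion. -/
lemma legB_iff {p q : ℕ} (hp : p.Prime) (hp2 : p ≠ 2) (hlt : p < 2 ^ 30) (h : ¬ p ∣ q) :
    legB q p = true ↔ ¬ IsSquare ((q : ℕ) : ZMod p) := by
  haveI : Fact p.Prime := ⟨hp⟩
  have hodd : p % 2 = 1 := by
    rcases hp.eq_two_or_odd with h2 | h2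
    · exact absurd h2 hp2
    · exact h2
  have hne : ((q : ℕ) : ZMod p) ≠ 0 := by
    rw [Ne, ZMod.natCast_eq_zero_iff]
    exact h
  have he : (p - 1) / 2 = p / 2 := by omega
  have hlt' : (p - 1) / 2 < 2 ^ 40 := by
    have : p < 2 ^ 40 := lt_of_lt_of_le hlt (by norm_num)
    omega
  have hc := powMod_cast p 40 (q % p) ((p - 1) / 2) 1 hlt'
  have hl := powMod_lt p 40 (q % p) ((p - 1) / 2) 1 hp.pos hp.one_lt
  rw [ZMod.natCast_mod, Nat.cast_one, one_mul, he] at hc
  rw [he] at hl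
  rw [ZMod.euler_criterion p hne, legB, decide_eq_true_iff, he, ← hc]
  refine not_congr ⟨fun h1 => by rw [h1, Nat.cast_one], fun h1 => ?_⟩
  have h2 : ((powMod p 40 (q % p) (p / 2) 1 : ℕ) : ZMod p) = ((1 : ℕ) : ZMod p) := by
    rw [h1, Nat.cast_one]
  rw [ZMod.natCast_eq_natCast_iff] at h2
  exact Nat.ModEq.eq_of_lt_of_lt h2 hl hp.one_lt

end Pool.Agent.Helper2.BQ
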